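import Pool.Agent.Lib.MP_28fba0_gt.UV.Final

/-!
# The Gluck–Ziller bound is not the infimum of the volume of unit vector fields

For every `m ≥ 2` there is `δ > 0` such that every `C¹` unit tangent vector field `V` on the unit
sphere `S^(2m+1)` satisfies `Vol(V) ≥ (4^m / C(2m,m) + δ) area(S^(2m+1))`.
-/

set_option autoImplicit false

namespace Pool.Agent.Results.MP_28fba0_gt.StrictBound

open MeasureTheory Set
open scoped RealInnerProductSpace

section

variable {F : Type} [NormedAddCommGroup F] [InnerProductSpace ℝ F]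

/-- `V` is a `C¹` map on `F ∖ {0}` whose restriction to the unit sphere of `F` is a unit tangent
vector field.  (Every `C¹` unit tangent field `V` of the sphere is of this form: extend it by
`x ↦ V(x / ‖x‖)`.) -/
structure IsUnitField (V : F → F) : Prop where
  smooth : ContDiffOn ℝ 1 V {0}ᶜ
  norm : ∀ x, ‖x‖ = 1 → ‖V x‖ = 1
  tangent : ∀ x, ‖x‖ = 1 → ⟪x, V x⟫ = 0

/-- the orthogonal projection `π_x w = w - ⟪x, w⟫ x` onto the tangent space `x^⊥` of the unit sphere
at the point `x`, `‖x‖ = 1` -/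
noncomputable def proj (x w : F) : F := w - ⟪x, w⟫ • x

/-- the covariant derivative `∇_w V = π_x (DV(x) (π_x w))` of the field at the point `x` of the unit
sphere (for a tangent vector `w`; it is extended by `0` in the normal direction).  Only the values
of `V` on the sphere matter. -/
noncomputable def nabla (V : F → F) (x w : F) : F := proj x (fderiv ℝ V x (proj x w))

end

/-- the matrix of the endomorphism `(∇V)ᵗ ∘ ∇V` at the point `x` in the standard basis of `ℝ^n`.
(This endomorphism kills `x` and preserves `x^⊥`.) -/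
noncomputable def gram {n : ℕ} (V : EuclideanSpace ℝ (Fin n) → EuclideanSpace ℝ (Fin n))
    (x : EuclideanSpace ℝ (Fin n)) : Matrix (Fin n) (Fin n) ℝ :=
  fun i j => ⟪nabla V x (EuclideanSpace.single i 1), nabla V x (EuclideanSpace.single j 1)⟫

/-- the density `√det(Id + (∇V)ᵗ ∘ ∇V)` at the point `x` of the unit sphere (as `(∇V)ᵗ ∘ ∇V` kills
`x`, the determinant over `ℝ^n` is the determinant over the tangent space) -/
noncomputable def density {n : ℕ} (V : EuclideanSpace ℝ (Fin n) → EuclideanSpace ℝ (Fin n))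
    (x : EuclideanSpace ℝ (Fin n)) : ℝ := √ (1 + gram V x).det

/-- the volume of a unit vector field: the integral of the density over the unit sphere with its
surface measure -/
noncomputable def vol {n : ℕ} (V : EuclideanSpace ℝ (Fin n) → EuclideanSpace ℝ (Fin n)) : ℝ :=
  ∫ x : Metric.sphere (0 : EuclideanSpace ℝ (Fin n)) 1, density V x ∂(volume.toSphere)

/-- the area of the unit sphere of `ℝ^n` -/
noncomputable def area (n : ℕ) : ℝ :=
  ((volume : Measure (EuclideanSpace ℝ (Fin n))).toSphere univ).toReal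

theorem gram_eq {n : ℕ} (V : EuclideanSpace ℝ (Fin n) → EuclideanSpace ℝ (Fin n))
    (x : EuclideanSpace ℝ (Fin n)) : density V x = Pool.UVF.dens V x := by
  set b := (EuclideanSpace.basisFun (Fin n) ℝ) with hb
  unfold density Pool.UVF.dens
  congr 1
  rw [← LinearMap.det_toMatrix b.toBasis]
  congr 1
  have h5 : (((1 : Pool.UVF.Eu n →L[ℝ] Pool.UVF.Eu n) +
    (ContinuousLinearMap.adjoint (Pool.UVF.nabla V x)) ∘L (Pool.UVF.nabla V x) :
      Pool.UVF.Eu n →L[ℝ] Pool.UVF.Eu n) : Pool.UVF.Eu n →ₗ[ℝ] Pool.UVF.Eu n)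
    = LinearMap.id + (LinearMap.adjoint ((Pool.UVF.nabla V x :
        Pool.UVF.Eu n →L[ℝ] Pool.UVF.Eu n) : Pool.UVF.Eu n →ₗ[ℝ] Pool.UVF.Eu n)) ∘ₗ
      ((Pool.UVF.nabla V x : Pool.UVF.Eu n →L[ℝ] Pool.UVF.Eu n) :
        Pool.UVF.Eu n →ₗ[ℝ] Pool.UVF.Eu n) := by
    ext w i
    simp [LinearMap.adjoint_eq_toCLM_adjoint]
    rfl
  rw [h5, map_add, LinearMap.toMatrix_id, LinearMap.toMatrix_comp b.toBasis b.toBasis b.toBasis,
    LinearMap.toMatrix_adjoint]
  congr 1
  ext i j
  rw [Matrix.mul_apply]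
  have h6 : ∀ k l, LinearMap.toMatrix b.toBasis b.toBasis
      ((Pool.UVF.nabla V x : Pool.UVF.Eu n →L[ℝ] Pool.UVF.Eu n) :
        Pool.UVF.Eu n →ₗ[ℝ] Pool.UVF.Eu n) k l
      = (nabla V x (EuclideanSpace.single l 1)) k := by
    intro k l
    rw [LinearMap.toMatrix_apply]
    simp only [hb]
    simp
    rfl
  simp only [Matrix.conjTranspose_apply, h6, gram]
  rw [PiLp.inner_apply]
  refine Finset.sum_congr rfl fun k _ => ?_
  simp [mul_comm]

theorem result (m : ℕ) (hm : 2 ≤ m) : ∃ δ : ℝ, 0 < δ ∧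
    ∀ V : EuclideanSpace ℝ (Fin (2 * m + 2)) → EuclideanSpace ℝ (Fin (2 * m + 2)),
      IsUnitField V →
      (4 ^ m / (Nat.choose (2 * m) m : ℝ) + δ) * area (2 * m + 2) ≤ vol V := by
  obtain ⟨δ, hδ, h⟩ := Pool.UVF.strict_bound m hm
  refine ⟨δ, hδ, fun V hV => (h V ⟨hV.smooth, hV.norm, hV.tangent⟩).trans (le_of_eq ?_)⟩
  unfold vol Pool.UVF.vol
  congr 1
  funext x
  exact (gram_eq V _).symm

end Pool.Agent.Results.MP_28fba0_gt.StrictBound
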